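import Pool.Agent.Helper72.LSr.S6b

/-!
# Section 6: LR-M3
-/

namespace Pool.Agent.Helper38.LSr

open Finset
open scoped Classical
open Pool.Agent.Helper72.LSr

variable {V : Type} {j : ℕ} {G : SimpleGraph V} {S : Finset V} {k A B : ℕ} {w : V}


/-! ### LR-M3 -/

/-- adjacent `u, x ∈ NH`: `D_u + D_x ≥ M + 2` -/
theorem ml_D_add (h : ML V j G S k A B w) {u x : V} (hu : u ∈ NH G S w) (hx : x ∈ NH G S w)
    (hadj : G.Adj u x) : (MS k (A + 1) B S) + 2 ≤ (Dv k (A + 1) B G S) u + (Dv k (A + 1) B G S) x := by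
  unfold NH at hu hx
  rw [mem_filter] at hu hx
  have hc := h.hc u hu.1 x hx.1 hadj
  have hsub : nb G S u ∪ nb G S x ⊆ S.erase w := by
    intro y hy
    rw [mem_union, mem_nb, mem_nb] at hy
    rw [mem_erase]
    rcases hy with hy | hy
    · refine ⟨?_, hy.1⟩
      rintro rfl
      exact hu.2.1 hy.2.symm
    · refine ⟨?_, hy.1⟩
      rintro rfl
      exact hx.2.1 hy.2.symm
  have hcard := card_le_card hsub
  have h1 := card_union_add_card_inter (nb G S u) (nb G S x)
  have h2 := card_erase_add_one h.hw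
  have h3 : ((nb G S u).card : ℤ) + (nb G S x).card ≤ S.card - 1 + (nb G S u ∩ nb G S x).card := by
    omega
  unfold cv at hc
  unfold MS Mm nu Dv
  linarith

theorem ml_far (h : ML V j G S k A B w) (hm : 1 ≤ (K G (NH G S w) 2)) (f : V → ℕ) (hf : Set.InjOn f (NH G S w))
    (hfD : ∀ x ∈ NH G S w, ∀ u ∈ NH G S w, f x < f u → (Dv k (A + 1) B G S) x ≤ (Dv k (A + 1) B G S) u) :
    ∀ u ∈ NH G S w,
      k * ((Dv k (A + 1) B G S) w * (es k A B (j + 1)) * (sq k (A + 1) B G S) u (Qf G (NH G S w) f u) + (es k A B (j + 1)) * ((Yv k (A + 1) B G S) w * (Dv k (A + 1) B G S) u - (Dv k (A + 1) B G S) w * (Yv k (A + 1) B G S) u))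
      ≤ (k + 1) * ((Dv k (A + 1) B G S) w * con k A B j G S u (Qf G (NH G S w) f u)
          + (es k A B (j + 1)) * ((Yv k (A + 1) B G S) w * (Dv k (A + 1) B G S) u - (Dv k (A + 1) B G S) w * (Yv k (A + 1) B G S) u)) := by
  intro u hu
  have huS : u ∈ S := (mem_filter.1 hu).1
  have hQsub : ∀ v ∈ NH G S w, Qf G (NH G S w) f v ⊆ nb G S v := by
    intro v _ x hx
    unfold Qf at hx
    rw [mem_filter] at hx
    rw [mem_nb]
    exact ⟨(mem_filter.1 hx.1).1, hx.2.1⟩
  have hQu := hQsub u hu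
  -- the total bound
  have htot := id_one' (G := G) (S := S) h.hw k A B j f hf
  have hnon : ∀ v ∈ NH G S w, 0 ≤ (Dv k (A + 1) B G S) w * con k A B j G S v (Qf G (NH G S w) f v)
      + (es k A B (j + 1)) * ((Yv k (A + 1) B G S) w * (Dv k (A + 1) B G S) v - (Dv k (A + 1) B G S) w * (Yv k (A + 1) B G S) v) := fun v hv =>
    ml_con h (mem_filter.1 hv).1 (hQsub v hv)
  have hsingle := single_le_sum hnon hu
  rw [sum_add_distrib, ← mul_sum, ← mul_sum] at hsingle
  obtain ⟨hPL, hkap⟩ := ml_L h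
  obtain ⟨_, hlam1, _⟩ := ml_main h
  have hQQ := h.hQ
  have hNum := ml_num h hm
  have hk2 := hNum.two_le_k
  have hYw := h.hY
  have hEw := h.hE w h.hw
  have hrm : 0 ≤ (max (-(rS k (A + 1) B G S)) 0) := le_max_right _ _
  have hDw : 2 ≤ (Dv k (A + 1) B G S) w := by linarith
  have hDu := h.hD u huS
  have hEu := h.hE u huS
  have hmaxu := h.hmax u huS
  have hslack : 0 ≤ (Yv k (A + 1) B G S) w * (Dv k (A + 1) B G S) u - (Dv k (A + 1) B G S) w * (Yv k (A + 1) B G S) u := by linarith [mul_comm ((Yv k (A + 1) B G S) u) ((Dv k (A + 1) B G S) w)]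
  have hlam : 0 ≤ (es k A B (j + 1)) := by linarith
  -- `s ≥ 0`
  have hs : 0 ≤ (sq k (A + 1) B G S) u (Qf G (NH G S w) f u) := by
    unfold Pool.Agent.Helper72.LSr.sq
    refine add_nonneg (sum_nonneg ?_) (K_nonneg G _ _)
    intro x hx
    have := hQu hx
    rw [mem_nb] at this
    exact h.hc u huS x this.1 this.2
  have e1 := gS_nb_sdiff G S k A B huS hQu
  have e2 := MS_nb_sdiff G S k A B hQu
  have e3 := rS_eq (G := G) (S := nb G S u \ Qf G (NH G S w) f u) k A B
  set Q := Qf G (NH G S w) f u with hQdef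
  have hcon : con k A B j G S u Q = (es k A B (j + 1)) * (sq k (A + 1) B G S) u Q + Phi k A B (j + 1) G (nb G S u \ Q) := rfl
  have hcard0 : (0 : ℤ) ≤ Q.card := by positivity
  have hkpos : (1 : ℤ) ≤ k := by exact_mod_cast h.hk
  -- upper bound for the term
  have hup : (Dv k (A + 1) B G S) w * con k A B j G S u Q + (es k A B (j + 1)) * ((Yv k (A + 1) B G S) w * (Dv k (A + 1) B G S) u - (Dv k (A + 1) B G S) w * (Yv k (A + 1) B G S) u)
      ≤ (es k A B (j + 1)) * (Yv k (A + 1) B G S) w * (Dv k (A + 1) B G S w - Yv k (A + 1) B G S w - rS k (A + 1) B G S - K G (NH G S w) 2) - (Dv k (A + 1) B G S) w * (1 + (es k A B (j + 1)) * (max (-(rS k (A + 1) B G S)) 0)) := by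
    have hD0 : 0 ≤ (Dv k (A + 1) B G S) w := by linarith
    have h1 : (Dv k (A + 1) B G S) w * (1 + (es k A B (j + 1)) * (max (-(rS k (A + 1) B G S)) 0)) ≤ (Dv k (A + 1) B G S) w * (- Phi k (A + 1) B (j + 2) G S) := mul_le_mul_of_nonneg_left hQQ hD0
    have h2 : 0 ≤ (Dv k (A + 1) B G S) w * (Phi k A B (j + 2) G (nb G S w)) := mul_nonneg hD0 hPL
    have h3 : 0 ≤ (Dv k (A + 1) B G S) w * (Phi k A B (j + 1) G (nb G S w)) := mul_nonneg hD0 hkap
    linarith [mul_add ((Dv k (A + 1) B G S) w) ((- Phi k (A + 1) B (j + 2) G S) + (Phi k A B (j + 2) G (nb G S w)) + (Phi k A B (j + 1) G (nb G S w))) (∑ u ∈ NH G S w, con k A B j G S u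
      (Qf G (NH G S w) f u)), mul_add ((Dv k (A + 1) B G S) w) ((- Phi k (A + 1) B (j + 2) G S) + (Phi k A B (j + 2) G (nb G S w))) (Phi k A B (j + 1) G (nb G S w)), mul_add ((Dv k (A + 1) B G S) w) (- Phi k (A + 1) B (j + 2) G S) (Phi k A B (j + 2) G (nb G S w))]
  rcases le_or_gt ((sq k (A + 1) B G S) u Q - (Yv k (A + 1) B G S) u) 0 with hx | hx
  · -- `x ≤ 0`
    have hP := Phi_nonneg (i := j + 1) (G := G) (S := nb G S u \ Q) (fun m => h.th1 _ m) h.hk
      (by linarith) (by linarith)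
    rw [hcon]
    have h1 : 0 ≤ (Dv k (A + 1) B G S) w * Phi k A B (j + 1) G (nb G S u \ Q) := mul_nonneg (by linarith) hP
    have h2 : 0 ≤ (Dv k (A + 1) B G S) w * ((es k A B (j + 1)) * (sq k (A + 1) B G S) u Q) := mul_nonneg (by linarith) (mul_nonneg hlam hs)
    have h3 : 0 ≤ (es k A B (j + 1)) * ((Yv k (A + 1) B G S) w * (Dv k (A + 1) B G S) u - (Dv k (A + 1) B G S) w * (Yv k (A + 1) B G S) u) := mul_nonneg hlam hslack
    nlinarith [mul_nonneg (by linarith : (0 : ℤ) ≤ (k : ℤ)) h1]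
  · -- `x > 0`
    have hMX : 2 ≤ (Dv k (A + 1) B G S) u + Q.card := by
      by_contra hc
      push Not at hc
      have hq0 : Q.card = 0 := by omega
      have hQe : Q = ∅ := card_eq_zero.1 hq0
      have hs0 : (sq k (A + 1) B G S) u Q = 0 := by
        rw [hQe]
        unfold Pool.Agent.Helper72.LSr.sq
        rw [sum_empty, show (2 : ℕ) = 1 + 1 from rfl, K_empty]
        rfl
      have hYu : (Yv k (A + 1) B G S) u < 0 := by linarith
      rcases h.h5 u huS hYu with h5 | h5
      · have : (Q.card : ℤ) = 0 := by exact_mod_cast hq0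
        linarith
      · have := h.hX
        have : (Q.card : ℤ) = 0 := by exact_mod_cast hq0
        linarith
    have hid : (Dv k (A + 1) B G S) w * ((sq k (A + 1) B G S) u Q - ((sq k (A + 1) B G S) u Q - (Yv k (A + 1) B G S) u)) + ((Yv k (A + 1) B G S) w * (Dv k (A + 1) B G S) u - (Dv k (A + 1) B G S) w * (Yv k (A + 1) B G S) u) = (Yv k (A + 1) B G S) w * (Dv k (A + 1) B G S) u := by
      ring
    rcases le_or_gt ((sq k (A + 1) B G S) u Q - (Yv k (A + 1) B G S) u) ((Dv k (A + 1) B G S) u + Q.card - 2) with hx2 | hx2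
    · have hov := Phi_ov (j := j) (G := G) (S := nb G S u \ Q) (fun m => h.th1 _ m)
        (by exact_mod_cast hk2) ((sq k (A + 1) B G S) u Q - (Yv k (A + 1) B G S) u) hx.le (by rw [e1]; linarith) (by rw [e2]; linarith)
      rw [e1] at hov
      rw [hcon]
      have h1 : (Dv k (A + 1) B G S) w * (-(((sq k (A + 1) B G S) u Q - (Yv k (A + 1) B G S) u) * (es k A B (j + 1)))) ≤
          (Dv k (A + 1) B G S) w * ((k + 1) * Phi k A B (j + 1) G (nb G S u \ Q)) := by
        apply mul_le_mul_of_nonneg_left _ (by linarith)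
        refine le_trans (le_of_eq ?_) hov
        ring
      have h2 : 0 ≤ (es k A B (j + 1)) * ((Yv k (A + 1) B G S) w * (Dv k (A + 1) B G S) u) := mul_nonneg hlam (mul_nonneg (by linarith) (by linarith))
      have h3 : (es k A B (j + 1)) * ((Yv k (A + 1) B G S) w * (Dv k (A + 1) B G S) u) = (Dv k (A + 1) B G S) w * (es k A B (j + 1)) * (sq k (A + 1) B G S) u Q + (Dv k (A + 1) B G S) w * (-(((sq k (A + 1) B G S) u Q - (Yv k (A + 1) B G S) u) * (es k A B (j + 1))))
          + (es k A B (j + 1)) * ((Yv k (A + 1) B G S) w * (Dv k (A + 1) B G S) u - (Dv k (A + 1) B G S) w * (Yv k (A + 1) B G S) u) := by ring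
      linarith
    · exfalso
      have hov := Phi_ov (j := j) (G := G) (S := nb G S u \ Q) (fun m => h.th1 _ m)
        (by exact_mod_cast hk2) ((Dv k (A + 1) B G S) u + Q.card - 2) (by linarith) (by rw [e1]; linarith)
        (by rw [e2])
      rw [e1] at hov
      have h1 := mul_le_mul_of_nonneg_left hov (by linarith : 0 ≤ (Dv k (A + 1) B G S) w)
      have h2 : (es k A B (j + 1)) * ((k + 1) * (Yv k (A + 1) B G S) w * (Dv k (A + 1) B G S) u + k * ((Dv k (A + 1) B G S) u + Q.card - 2) * (Dv k (A + 1) B G S) w)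
          ≤ (k + 1) * ((Dv k (A + 1) B G S) w * con k A B j G S u Q + (es k A B (j + 1)) * ((Yv k (A + 1) B G S) w * (Dv k (A + 1) B G S) u - (Dv k (A + 1) B G S) w * (Yv k (A + 1) B G S) u)) := by
        rw [hcon]
        refine le_trans (le_of_eq ?_) (le_trans (add_le_add_left h1
          ((k + 1) * ((Dv k (A + 1) B G S) w * ((es k A B (j + 1)) * (sq k (A + 1) B G S) u Q)) + (k + 1) * ((es k A B (j + 1)) * ((Yv k (A + 1) B G S) w * (Dv k (A + 1) B G S) u - (Dv k (A + 1) B G S) w * (Yv k (A + 1) B G S) u))))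
          (le_of_eq ?_))
        · ring
        · ring
      have h3 : (k + 1) * ((Yv k (A + 1) B G S) w * (Dv k (A + 1) B G S w - Yv k (A + 1) B G S w - rS k (A + 1) B G S - K G (NH G S w) 2) - (max (-(rS k (A + 1) B G S)) 0) * (Dv k (A + 1) B G S) w) ≤
          (k + 1) * (Yv k (A + 1) B G S) w * (Dv k (A + 1) B G S) u + k * ((Dv k (A + 1) B G S) u + Q.card - 2) * (Dv k (A + 1) B G S) w := by
        by_cases hQe : Q = ∅
        · have hs0 : (sq k (A + 1) B G S) u Q = 0 := by
            rw [hQe]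
            unfold Pool.Agent.Helper72.LSr.sq
            rw [sum_empty, show (2 : ℕ) = 1 + 1 from rfl, K_empty]
            rfl
          have hq0 : (Q.card : ℤ) = 0 := by rw [hQe]; simp
          have hYu : (Yv k (A + 1) B G S) u < 0 := by linarith
          rcases h.h5 u huS hYu with h5 | h5
          · linarith
          · have := hNum.far2 ((Dv k (A + 1) B G S) u) h5
            rw [hq0, add_zero]
            exact this
        · obtain ⟨x, hxQ⟩ := nonempty_iff_ne_empty.2 hQe
          have hxQ' := hxQ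
          rw [hQdef] at hxQ'
          unfold Qf at hxQ'
          rw [mem_filter] at hxQ'
          have hDx := hfD x hxQ'.1 u hu hxQ'.2.2
          have hadd := ml_D_add h hu hxQ'.1 hxQ'.2.1
          have := hNum.far1 ((Dv k (A + 1) B G S) u) (by linarith)
          have hq1 : (1 : ℤ) ≤ Q.card := by
            exact_mod_cast card_pos.2 ⟨x, hxQ⟩
          have h4 : k * ((Dv k (A + 1) B G S) u - 1) * (Dv k (A + 1) B G S) w ≤ k * ((Dv k (A + 1) B G S) u + Q.card - 2) * (Dv k (A + 1) B G S) w := by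
            apply mul_le_mul_of_nonneg_right _ (by linarith)
            apply mul_le_mul_of_nonneg_left _ (by linarith)
            linarith
          linarith
      have h4 := mul_le_mul_of_nonneg_left h3 hlam
      have h5 := mul_le_mul_of_nonneg_left hup (by linarith : (0 : ℤ) ≤ k + 1)
      have h6 : (k + 1) * ((es k A B (j + 1)) * (Yv k (A + 1) B G S) w * (Dv k (A + 1) B G S w - Yv k (A + 1) B G S w - rS k (A + 1) B G S - K G (NH G S w) 2) - (Dv k (A + 1) B G S) w * (1 + (es k A B (j + 1)) * (max (-(rS k (A + 1) B G S)) 0))) =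
          (es k A B (j + 1)) * ((k + 1) * ((Yv k (A + 1) B G S) w * (Dv k (A + 1) B G S w - Yv k (A + 1) B G S w - rS k (A + 1) B G S - K G (NH G S w) 2) - (max (-(rS k (A + 1) B G S)) 0) * (Dv k (A + 1) B G S) w)) - (k + 1) * (Dv k (A + 1) B G S) w := by ring
      have h7 : 0 < ((k : ℤ) + 1) * (Dv k (A + 1) B G S) w := mul_pos (by linarith) (by linarith)
      linarith

end Pool.Agent.Helper38.LSr
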